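import Pool.Agent.Lib.MP_9a7843_ag_A.XDef

/-!
# MP_9a7843_ag, block A: the statements that the blocks X, T, M, L, FL, V export to the assembly

Each export is a `def ... : Prop`; the blocks prove `theorem exp... : Exp... k`.
`Top.lean` derives the final theorem from all of them.
-/

noncomputable section

open MvPolynomial Classical

open Pool.Agent.MP9a7843 Pool.Agent.MP9a7843.ProjVar

namespace MP9a7843

universe u

section TField

variable (k : Type u) [Field k]

/-- The function field of `T`. -/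
def KT : Type u := FractionRing (MvPolynomial (TVar 0 1) k)

instance : Field (KT k) := inferInstanceAs (Field (FractionRing (MvPolynomial (TVar 0 1) k)))

instance : Algebra k (KT k) := inferInstanceAs (Algebra k (FractionRing (MvPolynomial (TVar 0 1) k)))

instance : Algebra (MvPolynomial (TVar 0 1) k) (KT k) :=
  inferInstanceAs (Algebra (MvPolynomial (TVar 0 1) k) (FractionRing (MvPolynomial (TVar 0 1) k)))

instance : IsFractionRing (MvPolynomial (TVar 0 1) k) (KT k) :=
  inferInstanceAs (IsFractionRing (MvPolynomial (TVar 0 1) k) (FractionRing (MvPolynomial (TVar 0 1) k)))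

instance : IsScalarTower k (MvPolynomial (TVar 0 1) k) (KT k) :=
  inferInstanceAs (IsScalarTower k (MvPolynomial (TVar 0 1) k)
    (FractionRing (MvPolynomial (TVar 0 1) k)))

/-- A coordinate of the T-chart `(0; 1)` as an element of `K_T`. -/
def tv (s : TVar 0 1) : KT k := algebraMap (MvPolynomial (TVar 0 1) k) (KT k) (X s)

/-- `u = (1, u_1, ..., u_9)`. -/
def tU (l : Fin 10) : KT k := if h : l ≠ 0 then tv k (Sum.inl ⟨l, h⟩) else 1

/-- `b`. -/
def tB : KT k := tv k (Sum.inr (Sum.inr 0))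

/-- `a0`. -/
def tA : KT k := tv k (Sum.inr (Sum.inr 1))

/-- `p = (0, 1, p_2, ..., p_9)`. -/
def tP (l : Fin 10) : KT k :=
  if h : l ≠ 0 ∧ l ≠ 1 then tv k (Sum.inr (Sum.inl ⟨l, h⟩)) else if l = 1 then 1 else 0

/-- `v = b u + p`. -/
def tV (l : Fin 10) : KT k := tB k * tU k l + tP k l

/-- The generic point of `T`, as a point of `X`: `F = a0 u^3 + 3 u v^2`. -/
def zT : Idx → KT k := zfun (tU k) (tV k) ![tA k, 0, 1, 0]

/-- `L` (with the point `z`) embeds into `K_T` over `X`. -/
def EmbT {L : Type u} [Field L] [Algebra k L] (z : Idx → L) : Prop :=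
  ∃ (i : L →ₐ[k] KT k) (r : KT k), r ≠ 0 ∧ ∀ I, i (z I) = r * zT k I

end TField

variable (k : Type u) [Field k]

/-- `L` is algebraic over `k(z_i / z_j)`. -/
def FinOver {ι : Type*} {L : Type*} [Field L] [Algebra k L] (z : ι → L) : Prop :=
  Algebra.IsAlgebraic (IntermediateField.adjoin k {a : L | ∃ i j, a = z i / z j}) L

/-! ### Block X -/

/-- `X` is smooth. -/
def ExpSmooth : Prop := (XX k).Smooth

/-- `X` is weak Fano. -/
def ExpWeakFano : Prop := (XX k).WeakFano

/-- Numerical classes of `1`-cycles on `X`: `cl e h` is the class with `ξ ↦ e`, `H ↦ h`. -/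
structure NumData (cl : ℝ → ℝ → (XX k).CaDiv → ℝ) : Prop where
  sub : ∀ e h e' h', cl e h - cl e' h' = cl (e - e') (h - h')
  int : ∀ α, α ∈ (XX k).N1Int ↔ ∃ e h : ℤ, α = cl e h
  nef : ∀ e h, cl e h ∈ (XX k).Nef1 ↔ 0 ≤ h ∧ 6 * h ≤ 4 * e

/-! ### Block M -/

/-- Coefficients of the generic member of a family of polynomial tuples. -/
def coefOf {Ω : Type u} [Field Ω] (d : ℕ) (g : Idx → Polynomial Ω) : (XX k).ι × Fin (d + 1) → Ω :=
  fun s => (g s.1).coeff s.2

/-- For `e ≥ 3h` the space `Mor(P^1, X, α)` has at most one component. -/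
def ExpAlpha2 (cl : ℝ → ℝ → (XX k).CaDiv → ℝ) : Prop :=
  ∀ e h : ℕ, 3 * h ≤ e → ∀ M M' : Set (XX k).Mor, (XX k).IsComponent (cl e h) M →
    (XX k).IsComponent (cl e h) M' → M = M'

/-- For `h = 2b` even and `3h/2 < e < 2h` there are two different components, with the given generic points:
`b1 = 2h - e`, `b2 = e - h`, `n0 = 4e - 6h`, `n = e - 3b`. -/
def ExpAlpha1 (cl : ℝ → ℝ → (XX k).CaDiv → ℝ) : Prop :=
  ∀ e h b b1 b2 n0 n : ℕ, h = 2 * b → 3 * h < 2 * e → e < 2 * h → b1 + e = 2 * h → b2 + h = e →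
    n0 + 6 * h = 4 * e → n + 3 * b = e →
    ∃ MG MH : Set (XX k).Mor, MG ≠ MH ∧ (XX k).IsComponent (cl e h) MG ∧
      (XX k).IsComponent (cl e h) MH ∧
      IsGenericOf MG (e + h) (coefOf k (e + h) (famG (genTh k (SigG b n)))) ∧
      IsGenericOf MH (e + h) (coefOf k (e + h) (famH (genTh k (SigH b1 b2 n0))))

/-! ### Block L -/

/-- The generic curve of an accumulating component lifts. -/
def ExpLift : Prop :=
  ∀ (X Y : ProjVar k) (f : Hom Y X), f.GenFinite →
  ∀ (α : X.CaDiv → ℝ) (M : Set X.Mor) (β : Y.CaDiv → ℝ) (N : Set Y.Mor), X.IsComponent α M →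
    Y.IsComponent β N → M ⊆ closure {G | G ∈ M ∧ ∃ g ∈ N, f.IsComp g G} →
  ∀ (d : ℕ) (Ω : Type u) [Field Ω] [Algebra k Ω] (φ : X.ι × Fin (d + 1) → Ω), IsGenericOf M d φ →
    (∀ (r : ℕ) (G : MvPolynomial X.ι k), G.IsHomogeneous r →
      aeval (fun i => polyOf fun j => φ (i, j)) G = 0 → aeval X.z G = 0) →
    f.Dominant ∧ ∃ (lam : Y.K →ₐ[k] RatFunc (AlgebraicClosure Ω)) (r : RatFunc (AlgebraicClosure Ω)),
      r ≠ 0 ∧ ∀ i, lam (f.coord i) = r * algebraMap (Polynomial (AlgebraicClosure Ω)) _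
        (polyOf fun j => algebraMap Ω (AlgebraicClosure Ω) (φ (i, j)))

/-! ### Block FL -/

/-- Field lemma for `M_H`. -/
def ExpFieldH : Prop :=
  ∀ (b1 b2 n : ℕ), 1 ≤ b1 → 1 ≤ b2 → 1 ≤ n →
  ∀ (L : Type u) [Field L] [Algebra k L] (z : Idx → L),
    FinOver k z →
  ∀ (lam : L →ₐ[k] RatFunc (AlgebraicClosure (CoefField k (SigH b1 b2 n))))
    (r : RatFunc (AlgebraicClosure (CoefField k (SigH b1 b2 n)))), r ≠ 0 →
    (∀ I, lam (z I) = r * algebraMap (Polynomial (AlgebraicClosure (CoefField k (SigH b1 b2 n))))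
      (RatFunc (AlgebraicClosure (CoefField k (SigH b1 b2 n))))
      ((famH (genTh k (SigH b1 b2 n)) I).map (algebraMap (CoefField k (SigH b1 b2 n))
        (AlgebraicClosure (CoefField k (SigH b1 b2 n)))))) →
    EmbT k z

/-- Field lemma for `M_G`. -/
def ExpFieldG : Prop :=
  ∀ (b n : ℕ), 1 ≤ b → 1 ≤ n →
  ∀ (L : Type u) [Field L] [Algebra k L] (z : Idx → L),
    FinOver k z →
  ∀ (lam : L →ₐ[k] RatFunc (AlgebraicClosure (CoefField k (SigG b n))))
    (r : RatFunc (AlgebraicClosure (CoefField k (SigG b n)))), r ≠ 0 →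
    (∀ I, lam (z I) = r * algebraMap (Polynomial (AlgebraicClosure (CoefField k (SigG b n))))
      (RatFunc (AlgebraicClosure (CoefField k (SigG b n))))
      ((famG (genTh k (SigG b n)) I).map (algebraMap (CoefField k (SigG b n))
        (AlgebraicClosure (CoefField k (SigG b n)))))) →
    IsGenX k z

/-- The generic tuples are generic points of `X` (used with `ExpLift`). -/
def ExpGenericPt : Prop :=
  (∀ (b1 b2 n : ℕ) (d : ℕ), 1 ≤ b1 → 1 ≤ b2 → 1 ≤ n → b1 + b1 + b1 + n + (b1 + b2) = d →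
    b1 + b2 + b2 + (b1 + b2) ≤ d →
    ∀ (r : ℕ) (G : MvPolynomial (XX k).ι k), G.IsHomogeneous r →
      aeval (fun i => polyOf fun j => coefOf k d (famH (genTh k (SigH b1 b2 n))) (i, j)) G = 0 →
        aeval (XX k).z G = 0) ∧
  (∀ (b n : ℕ) (d : ℕ), 1 ≤ b → 1 ≤ n → 3 * b + n + 2 * b = d →
    ∀ (r : ℕ) (G : MvPolynomial (XX k).ι k), G.IsHomogeneous r →
      aeval (fun i => polyOf fun j => coefOf k d (famG (genTh k (SigG b n))) (i, j)) G = 0 →
        aeval (XX k).z G = 0)

/-! ### Block T -/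

/-- The function field of `X` embeds into `K_T` over `X`. -/
def ExpEmb : Prop :=
  ∀ (L : Type u) [Field L] [Algebra k L] (z : Idx → L), IsGenX k z → EmbT k z

/-- `[K_T : K_X] = 3` has no proper intermediate fields. -/
def ExpDichotomy : Prop :=
  ∀ (L : Type u) [Field L] [Algebra k L] (z : Idx → L), (∃ I, z I ≠ 0) → EmbT k z →
    FinOver k z →
    IsGenX k z ∨ ∃ u v a0, IsGenT k z u v a0

/-- The class lemma, for a field `L` with a point `z` of `X`: an integer function on the etale discrete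
valuation rings that is locally the order of a function is, up to the order of one function, a combination
of the orders of `ξ` and `H`. -/
def ClassLemma {L : Type u} [Field L] [Algebra k L] (z : Idx → L) : Prop :=
  ∀ (n : ValuationSubring L → ℤ) (Φ : Finset L), (∀ φ ∈ Φ, φ ≠ 0) →
    (∀ A ∈ VSet k z, ∃ φ ∈ Φ, n A = ord A φ) →
    ∃ (a b : ℤ) (φ : L), φ ≠ 0 ∧ ∀ A ∈ VSet k z, ∀ (i j : Fin 10) (m : Fin 4), i ≠ j →
      z (cellIdx i j m) ≠ 0 → (∀ s, cellCoord z i j m s ∈ A) →
      n A = a * ord A (z ((0, 0, 0), (i, j)) / z (cellIdx i j m)) +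
        b * ord A (z (cubIdx i j m, (0, 1)) / z (cellIdx i j m)) + ord A φ

/-- Class lemma for `K_X` (block X) and `K_T` (block T). -/
def ExpClass : Prop :=
  ∀ (L : Type u) [Field L] [Algebra k L] (z : Idx → L),
    (IsGenX k z ∨ ∃ u v a0, IsGenT k z u v a0) → ClassLemma k z

/-- Functions on `K_T` that are regular at all etale discrete valuation rings are constant. -/
def ExpConst : Prop :=
  ∀ φ : KT k, (∀ A ∈ VSet k (zT k), φ ∈ A) → ∃ c : k, φ = algebraMap k (KT k) c

/-! ### Block V -/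

/-- No dominant generically finite morphism from a smooth projective `Y` with `K_Y` inside `K_T` is
a breaking map. -/
def ExpNotBreaking : Prop :=
  ∀ (Y : ProjVar k), Y.Smooth → ∀ f : Hom Y (XX k), f.Dominant → f.GenFinite →
    EmbT k (fun I : Idx => f.coord I) → ¬ f.IsBreaking

end MP9a7843
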