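import Pool.Agent.Lib.MP_9a7843_ag_A.Top
import Pool.Agent.Lib.MP_9a7843_ag_X.WF
import Pool.Agent.Lib.MP_9a7843_ag_X.Cls
import Pool.Agent.Lib.MP_9a7843_ag_X.Pic
import Pool.Agent.Lib.MP_9a7843_ag_T.Emb
import Pool.Agent.Lib.MP_9a7843_ag_T.Dich
import Pool.Agent.Lib.MP_9a7843_ag_T.Class
import Pool.Agent.Lib.MP_9a7843_ag_M.Fin
import Pool.Agent.Lib.MP_9a7843_ag_L.Main
import Pool.Agent.Lib.MP_9a7843_ag_FL.ExpG
import Pool.Agent.Lib.MP_9a7843_ag_FL.ExpH
import Pool.Agent.Lib.MP_9a7843_ag_V.Main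

/-!
# MP_9a7843_ag, block A: the final theorem
-/

noncomputable section

open Pool.Agent.MP9a7843 Pool.Agent.MP9a7843.ProjVar

namespace MP9a7843

universe u

/-- Both halves of the class lemma. -/
theorem expClass (k : Type u) [Field k] [IsAlgClosed k] [CharZero k] : ExpClass k := by
  rintro L _ _ z (h | ⟨u, v, a0, h⟩)
  · exact classLemma_X h
  · exact classT h

/-- There is a smooth (weak) Fano variety without a uniform number of Manin components. -/
theorem main (k : Type u) [Field k] [IsAlgClosed k] [CharZero k] :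
    ∃ X : ProjVar k, X.Smooth ∧ X.WeakFano ∧ ¬ X.HasUniformCount :=
  final_of_exports k expSmooth expWeakFano (cl k) numData (expAlpha2 k) (expAlpha1 k) (expLift k)
    (expFieldH k) (expFieldG k) (expGenericPt k) (expEmb k)
    (expNotBreaking (expClass k) (expConst k) (expDichotomy k) fun _ h => one_le_aInv_XX h)

end MP9a7843
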