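import Pool.Agent.Lib.MP_9a7843_ag_A.Exports

/-!
# MP_9a7843_ag, block A: the final theorem from the exports of the blocks
-/

noncomputable section

open MvPolynomial Classical

open Pool.Agent.MP9a7843 Pool.Agent.MP9a7843.ProjVar

namespace MP9a7843

universe u

variable (k : Type u) [Field k]

/-- `polyOf` of the first coefficients of a polynomial of small degree is the polynomial. -/
theorem polyOf_coeff {R : Type*} [CommRing R] (d : ℕ) (p : Polynomial R) (hp : p.natDegree ≤ d) :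
    (polyOf fun j : Fin (d + 1) => p.coeff j) = p := by
  unfold polyOf
  rw [Fin.sum_univ_eq_sum_range (fun j => Polynomial.C (p.coeff j) * Polynomial.X ^ j) (d + 1)]
  conv_rhs => rw [p.as_sum_range_C_mul_X_pow' (Nat.lt_succ_of_le hp)]

theorem polyOf_map {R S : Type*} [CommRing R] [CommRing S] (f : R →+* S) (d : ℕ) (a : Fin (d + 1) → R) :
    (polyOf fun j => f (a j)) = (polyOf a).map f := by
  unfold polyOf
  simp [Polynomial.map_sum]

section deg

variable {R : Type*} [CommRing R]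

theorem natDegree_polyOf {R : Type*} [CommRing R] {d : ℕ} (a : Fin (d + 1) → R) :
    (polyOf a).natDegree ≤ d := by
  unfold polyOf
  refine Polynomial.natDegree_sum_le_of_forall_le _ _ fun j _ => ?_
  refine (Polynomial.natDegree_C_mul_X_pow_le _ _).trans ?_
  have := j.2
  omega

theorem natDegree_plu {u v : Fin 10 → Polynomial R} {b1 b2 : ℕ} (hu : ∀ l, (u l).natDegree ≤ b1)
    (hv : ∀ l, (v l).natDegree ≤ b2) (d e : Fin 10) : (plu u v d e).natDegree ≤ b1 + b2 := by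
  unfold plu
  refine (Polynomial.natDegree_sub_le _ _).trans (max_le ?_ ?_)
  · exact (Polynomial.natDegree_mul_le).trans (add_le_add (hu _) (hv _))
  · exact (Polynomial.natDegree_mul_le).trans (add_le_add (hu _) (hv _))

theorem natDegree_mul3 {p q r : Polynomial R} {a b c : ℕ} (hp : p.natDegree ≤ a)
    (hq : q.natDegree ≤ b) (hr : r.natDegree ≤ c) : (p * q * r).natDegree ≤ a + b + c :=
  (Polynomial.natDegree_mul_le).trans (add_le_add ((Polynomial.natDegree_mul_le).trans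
    (add_le_add hp hq)) hr)

theorem natDegree_add3 {p q r : Polynomial R} {a : ℕ} (hp : p.natDegree ≤ a)
    (hq : q.natDegree ≤ a) (hr : r.natDegree ≤ a) : (p + q + r).natDegree ≤ a :=
  (Polynomial.natDegree_add_le _ _).trans (max_le ((Polynomial.natDegree_add_le _ _).trans
    (max_le hp hq)) hr)

theorem natDegree_cub {u v : Fin 10 → Polynomial R} {c : Fin 4 → Polynomial R} {b1 b2 e : ℕ}
    {n : Fin 4 → ℕ} (hu : ∀ l, (u l).natDegree ≤ b1) (hv : ∀ l, (v l).natDegree ≤ b2)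
    (hc : ∀ m, (c m).natDegree ≤ n m) (h0 : c 0 = 0 ∨ n 0 + 3 * b1 ≤ e)
    (h1 : c 1 = 0 ∨ n 1 + 2 * b1 + b2 ≤ e) (h2 : c 2 = 0 ∨ n 2 + b1 + 2 * b2 ≤ e)
    (h3 : c 3 = 0 ∨ n 3 + 3 * b2 ≤ e) (x y w : Fin 10) : (cub u v c x y w).natDegree ≤ e := by
  have key : ∀ (m : Fin 4) (p : Polynomial R) (s : ℕ), p.natDegree ≤ s → (c m = 0 ∨ n m + s ≤ e) →
      (c m * p).natDegree ≤ e := by
    intro m p s hp h
    rcases h with h | h
    · simp [h]
    · exact (Polynomial.natDegree_mul_le).trans ((add_le_add (hc m) hp).trans h)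
  unfold cub
  refine (Polynomial.natDegree_add_le _ _).trans (max_le (natDegree_add3 ?_ ?_ ?_) ?_)
  · exact key 0 _ (b1 + b1 + b1) (natDegree_mul3 (hu _) (hu _) (hu _)) (h0.imp_right fun h => by omega)
  · refine key 1 _ (b1 + b1 + b2) (natDegree_add3 (natDegree_mul3 (hu _) (hu _) (hv _)) ?_ ?_)
      (h1.imp_right fun h => by omega)
    · exact (natDegree_mul3 (hu _) (hv _) (hu _)).trans (by omega)
    · exact (natDegree_mul3 (hv _) (hu _) (hu _)).trans (by omega)
  · refine key 2 _ (b1 + b2 + b2) (natDegree_add3 (natDegree_mul3 (hu _) (hv _) (hv _)) ?_ ?_)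
      (h2.imp_right fun h => by omega)
    · exact (natDegree_mul3 (hv _) (hu _) (hv _)).trans (by omega)
    · exact (natDegree_mul3 (hv _) (hv _) (hu _)).trans (by omega)
  · exact key 3 _ (b2 + b2 + b2) (natDegree_mul3 (hv _) (hv _) (hv _)) (h3.imp_right fun h => by omega)

theorem natDegree_famH {b1 b2 n d : ℕ} (θ : SigH b1 b2 n → R) (h1 : b1 + b1 + b1 + n + (b1 + b2) ≤ d)
    (h2 : b1 + b2 + b2 + (b1 + b2) ≤ d) (I : Idx) : (famH θ I).natDegree ≤ d := by
  unfold famH zfun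
  refine (Polynomial.natDegree_mul_le).trans ((add_le_add (b := d - (b1 + b2)) ?_
    (natDegree_plu (b1 := b1) (b2 := b2) ?_ ?_ _ _)).trans (by omega))
  · refine natDegree_cub (b1 := b1) (b2 := b2) (n := ![n, 0, 0, 0]) (fun l => natDegree_polyOf _)
      (fun l => natDegree_polyOf _) ?_ (Or.inr ?_) (Or.inl ?_) (Or.inr ?_) (Or.inl ?_) _ _ _
    · intro m
      fin_cases m
      · simpa using natDegree_polyOf _
      · simp
      · simp
      · simp
    · simp only [Matrix.cons_val_zero]; omega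
    · simp
    · simp; omega
    · simp
  · exact fun l => natDegree_polyOf _
  · exact fun l => natDegree_polyOf _

theorem natDegree_famG {b n d : ℕ} (θ : SigG b n → R) (h : 3 * b + n + 2 * b ≤ d) (I : Idx) :
    (famG θ I).natDegree ≤ d := by
  unfold famG zfun
  refine (Polynomial.natDegree_mul_le).trans ((add_le_add (b := d - (b + b)) ?_
    (natDegree_plu (b1 := b) (b2 := b) ?_ ?_ _ _)).trans (by omega))
  · exact natDegree_cub (b1 := b) (b2 := b) (n := fun _ => n) (fun l => natDegree_polyOf _)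
      (fun l => natDegree_polyOf _) (fun m => natDegree_polyOf _) (Or.inr (by omega)) (Or.inr (by omega))
      (Or.inr (by omega)) (Or.inr (by omega)) _ _ _
  · exact fun l => natDegree_polyOf _
  · exact fun l => natDegree_polyOf _

end deg

theorem genFinite_iff {X Y : ProjVar k} (f : Hom Y X) : f.GenFinite ↔ FinOver k f.coord := Iff.rfl

theorem genFinite_XX {Y : ProjVar k} (f : Hom Y (XX k)) (h : f.GenFinite) :
    FinOver k (fun I : Idx => f.coord I) :=
  (genFinite_iff k f).1 h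

theorem polyOf_coefOf {Ω : Type u} [Field Ω] {Ω' : Type u} [Field Ω'] (f : Ω →+* Ω') (d : ℕ)
    (g : Idx → Polynomial Ω) (I : Idx) (h : (g I).natDegree ≤ d) :
    (polyOf fun j : Fin (d + 1) => f (coefOf k d g (I, j))) = (g I).map f := by
  have e : (fun j : Fin (d + 1) => f (coefOf k d g (I, j))) = fun j : Fin (d + 1) => f ((g I).coeff (j : ℕ)) := by
    funext j
    rfl
  rw [e, polyOf_map, polyOf_coeff d _ h]

/-- The final theorem from the exports. -/
theorem final_of_exports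
    (hsm : ExpSmooth k) (hwf : ExpWeakFano k)
    (cl : ℝ → ℝ → (XX k).CaDiv → ℝ) (hcl : NumData k cl) (h2 : ExpAlpha2 k cl) (h1 : ExpAlpha1 k cl)
    (hlift : ExpLift k) (hfH : ExpFieldH k) (hfG : ExpFieldG k) (hgp : ExpGenericPt k)
    (hemb : ExpEmb k) (hnb : ExpNotBreaking k) :
    ∃ X : ProjVar k, X.Smooth ∧ X.WeakFano ∧ ¬ X.HasUniformCount := by
  refine ⟨XX k, hsm, hwf, ?_⟩
  -- the components MH are Manin
  have accH : ∀ (b1 b2 n d : ℕ) (α : (XX k).CaDiv → ℝ) (M : Set (XX k).Mor), 1 ≤ b1 → 1 ≤ b2 → 1 ≤ n →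
      b1 + b1 + b1 + n + (b1 + b2) = d → b1 + b2 + b2 + (b1 + b2) ≤ d → (XX k).IsComponent α M →
      IsGenericOf M d (coefOf k d (famH (genTh k (SigH b1 b2 n)))) → ¬ (XX k).Accumulating M := by
    rintro b1 b2 n d α M hb1 hb2 hn hd hd' hM hg ⟨Y, f, β, N, hY, hbr, hN, hcl', -⟩
    obtain ⟨KX, KY, hKX, hKY, hfin, hbr'⟩ := id hbr
    obtain ⟨hdom, lam, r, hr, hlam⟩ := hlift (XX k) Y f hfin α M β N hM hN hcl' d _ _ hg
      (hgp.1 b1 b2 n d hb1 hb2 hn hd hd')
    refine hnb Y hY f hdom hfin ?_ hbr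
    refine hfH b1 b2 n hb1 hb2 hn Y.K (fun I => f.coord I) (genFinite_XX k f hfin) lam r hr fun I => ?_
    rw [hlam I, polyOf_coefOf k _ d _ I (natDegree_famH _ hd.le hd' I)]
  have accG : ∀ (b n d : ℕ) (α : (XX k).CaDiv → ℝ) (M : Set (XX k).Mor), 1 ≤ b → 1 ≤ n →
      3 * b + n + 2 * b = d → (XX k).IsComponent α M →
      IsGenericOf M d (coefOf k d (famG (genTh k (SigG b n)))) → ¬ (XX k).Accumulating M := by
    rintro b n d α M hb hn hd hM hg ⟨Y, f, β, N, hY, hbr, hN, hcl', -⟩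
    obtain ⟨KX, KY, hKX, hKY, hfin, hbr'⟩ := id hbr
    obtain ⟨hdom, lam, r, hr, hlam⟩ := hlift (XX k) Y f hfin α M β N hM hN hcl' d _ _ hg
      (hgp.2 b n d hb hn hd)
    refine hnb Y hY f hdom hfin (hemb _ _ ?_) hbr
    refine hfG b n hb hn Y.K (fun I => f.coord I) (genFinite_XX k f hfin) lam r hr fun I => ?_
    rw [hlam I, polyOf_coefOf k _ d _ I (natDegree_famG _ hd.le I)]
  rintro ⟨τ, ⟨hτn, hτi⟩, n, hn, H⟩
  obtain ⟨e0, h0, rfl⟩ := (hcl.int τ).1 hτi
  obtain ⟨hh0, heh0⟩ := (hcl.nef _ _).1 hτn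
  have hh0' : 0 ≤ h0 := by exact_mod_cast hh0
  have heh0' : 6 * h0 ≤ 4 * e0 := by exact_mod_cast heh0
  -- the class alpha_2
  have hle : (n : ℕ∞) ≤ 1 := by
    obtain ⟨e, he⟩ := Int.eq_ofNat_of_zero_le (show 0 ≤ e0 + 3 * h0 by linarith)
    obtain ⟨h, hh⟩ := Int.eq_ofNat_of_zero_le hh0'
    have hα : (XX k).Nef1 (cl e h) := by
      refine (hcl.nef _ _).2 ⟨by positivity, ?_⟩
      have : 6 * (h : ℤ) ≤ 4 * (e : ℤ) := by
        rw [← he, ← hh]; linarith
      exact_mod_cast this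
    have hαi : cl e h ∈ (XX k).N1Int := (hcl.int _).2 ⟨e, h, by simp⟩
    have hsub : cl e h - cl e0 h0 ∈ (XX k).Nef1 := by
      rw [hcl.sub]
      refine (hcl.nef _ _).2 ⟨?_, ?_⟩
      · have : (h : ℤ) - h0 = 0 := by rw [← hh]; ring
        have : ((h : ℤ) : ℝ) - h0 = 0 := by exact_mod_cast this
        push_cast at this
        linarith
      · have : 6 * ((h : ℤ) - h0) ≤ 4 * ((e : ℤ) - e0) := by rw [← he, ← hh]; linarith
        exact_mod_cast this
    have hcount := H _ ⟨hα, hαi⟩ hsub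
    rw [← hcount, Set.encard_le_one_iff]
    rintro M M' ⟨hM, -⟩ ⟨hM', -⟩
    refine h2 e h ?_ M M' hM hM'
    have : 3 * (h : ℤ) ≤ e := by rw [← he, ← hh]; linarith
    exact_mod_cast this
  -- the class alpha_1
  have hge : (2 : ℕ∞) ≤ n := by
    obtain ⟨δ, hδ0, hδ1, hpar⟩ : ∃ δ : ℤ, 0 ≤ δ ∧ δ ≤ 1 ∧ (h0 + δ) % 2 = 0 :=
      ⟨h0 % 2, by omega, by omega, by omega⟩
    obtain ⟨e, he⟩ := Int.eq_ofNat_of_zero_le (show 0 ≤ e0 + 7 * (e0 + 2) + 3 * δ by linarith)
    obtain ⟨h, hh⟩ := Int.eq_ofNat_of_zero_le (show 0 ≤ h0 + 4 * (e0 + 2) + δ by linarith)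
    have hα : (XX k).Nef1 (cl e h) := by
      refine (hcl.nef _ _).2 ⟨by positivity, ?_⟩
      have : 6 * (h : ℤ) ≤ 4 * (e : ℤ) := by
        rw [← he, ← hh]; linarith
      exact_mod_cast this
    have hαi : cl e h ∈ (XX k).N1Int := (hcl.int _).2 ⟨e, h, by simp⟩
    have hsub : cl e h - cl e0 h0 ∈ (XX k).Nef1 := by
      rw [hcl.sub]
      refine (hcl.nef _ _).2 ⟨?_, ?_⟩
      · have : 0 ≤ (h : ℤ) - h0 := by rw [← hh]; linarith
        exact_mod_cast this
      · have : 6 * ((h : ℤ) - h0) ≤ 4 * ((e : ℤ) - e0) := by rw [← he, ← hh]; linarith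
        exact_mod_cast this
    have hcount := H _ ⟨hα, hαi⟩ hsub
    obtain ⟨b, hb⟩ : ∃ b, h = 2 * b := by
      have : (h : ℤ) % 2 = 0 := by rw [← hh]; omega
      exact ⟨h / 2, by omega⟩
    have i1 : 3 * h < 2 * e := by zify; rw [← he, ← hh]; linarith
    have i2 : e < 2 * h := by zify; rw [← he, ← hh]; linarith
    obtain ⟨MG, MH, hne, hG, hH, gG, gH⟩ := h1 e h b (2 * h - e) (e - h) (4 * e - 6 * h) (e - 3 * b)
      hb i1 i2 (by omega) (by omega) (by omega) (by omega)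
    rw [← hcount]
    have hsubset : ({MG, MH} : Set (Set (XX k).Mor)) ⊆
        {M : Set (XX k).Mor | (XX k).IsComponent (cl e h) M ∧ ¬ (XX k).Accumulating M} := by
      rintro M (rfl | rfl)
      · exact ⟨hG, accG b (e - 3 * b) (e + h) _ _ (by omega) (by omega) (by omega) hG gG⟩
      · exact ⟨hH, accH (2 * h - e) (e - h) (4 * e - 6 * h) (e + h) _ _ (by omega) (by omega) (by omega)
          (by omega) (by omega) hH gH⟩
    calc (2 : ℕ∞) = ({MG, MH} : Set (Set (XX k).Mor)).encard := (Set.encard_pair hne).symm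
      _ ≤ _ := Set.encard_le_encard hsubset
  have : (2 : ℕ∞) ≤ 1 := hge.trans hle
  exact absurd this (by decide)

end MP9a7843
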