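import Pool.Agent.Lib.MP_9a7843_ag.Defs
import Pool.Agent.Lib.MP_9a7843_ag_B.Base

/-!
# MP_9a7843_ag, block A: the variety `X = P_{Gr(2,10)}(S^3 Pi)`, generic families of curves, shared predicates
-/

noncomputable section

open MvPolynomial Classical

open Pool.Agent.MP9a7843

namespace MP9a7843

universe u

section XX

variable (k : Type u) [Field k]

/-- The function field of `X`: rational functions in the 19 coordinates of the main cell. -/
def KX : Type u := FractionRing (MvPolynomial (CellVar 0 1 0) k)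

instance : Field (KX k) := inferInstanceAs (Field (FractionRing (MvPolynomial (CellVar 0 1 0) k)))

instance : Algebra k (KX k) := inferInstanceAs (Algebra k (FractionRing (MvPolynomial (CellVar 0 1 0) k)))

instance : Algebra (MvPolynomial (CellVar 0 1 0) k) (KX k) :=
  inferInstanceAs (Algebra (MvPolynomial (CellVar 0 1 0) k) (FractionRing (MvPolynomial (CellVar 0 1 0) k)))

instance : IsFractionRing (MvPolynomial (CellVar 0 1 0) k) (KX k) :=
  inferInstanceAs (IsFractionRing (MvPolynomial (CellVar 0 1 0) k)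
    (FractionRing (MvPolynomial (CellVar 0 1 0) k)))

instance : IsScalarTower k (MvPolynomial (CellVar 0 1 0) k) (KX k) :=
  inferInstanceAs (IsScalarTower k (MvPolynomial (CellVar 0 1 0) k)
    (FractionRing (MvPolynomial (CellVar 0 1 0) k)))

/-- A coordinate of the main cell as an element of the function field. -/
def xv (s : CellVar 0 1 0) : KX k := algebraMap (MvPolynomial (CellVar 0 1 0) k) (KX k) (X s)

/-- First basis vector `(1, 0, x_2, ..., x_9)` of the generic plane. -/
def xU (l : Fin 10) : KX k :=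
  if h : l ≠ 0 ∧ l ≠ 1 then xv k (Sum.inl ⟨l, h⟩) else if l = 0 then 1 else 0

/-- Second basis vector `(0, 1, y_2, ..., y_9)` of the generic plane. -/
def xV (l : Fin 10) : KX k :=
  if h : l ≠ 0 ∧ l ≠ 1 then xv k (Sum.inr (Sum.inl ⟨l, h⟩)) else if l = 1 then 1 else 0

/-- Coefficients `(1, γ_1, γ_2, γ_3)` of the generic cubic. -/
def xC (m : Fin 4) : KX k :=
  if h : m ≠ 0 then xv k (Sum.inr (Sum.inr ⟨m, h⟩)) else 1

theorem xz_ne : zfun (xU k) (xV k) (xC k) (cellIdx 0 1 0) = 1 := by
  simp [zfun, cellIdx, cubIdx, cub, plu, xU, xV, xC]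

theorem xz_cub_left (m : Fin 4) (l : Fin 10) : zfun (xU k) (xV k) (xC k) (cubIdx 0 1 m, (l, 1)) = xC k m * xU k l := by
  have h0 : xU k 0 = 1 := by simp [xU]
  have h1 : xU k 1 = 0 := by simp [xU]
  have h2 : xV k 0 = 0 := by simp [xV]
  have h3 : xV k 1 = 1 := by simp [xV]
  fin_cases m <;> simp [zfun, cubIdx, cub, plu, h0, h1, h2, h3]

theorem xz_cub_right (m : Fin 4) (l : Fin 10) : zfun (xU k) (xV k) (xC k) (cubIdx 0 1 m, (0, l)) = xC k m * xV k l := by
  have h0 : xU k 0 = 1 := by simp [xU]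
  have h1 : xU k 1 = 0 := by simp [xU]
  have h2 : xV k 0 = 0 := by simp [xV]
  have h3 : xV k 1 = 1 := by simp [xV]
  fin_cases m <;> simp [zfun, cubIdx, cub, plu, h0, h1, h2, h3]

theorem xz_adjoin : IntermediateField.adjoin k {a : KX k | ∃ i j, a = zfun (xU k) (xV k) (xC k) i / zfun (xU k) (xV k) (xC k) j} = ⊤ := by
  rw [eq_top_iff]
  have hv : ∀ s, xv k s ∈ IntermediateField.adjoin k {a : KX k | ∃ i j, a = zfun (xU k) (xV k) (xC k) i / zfun (xU k) (xV k) (xC k) j} := by
    have h0 : xU k 0 = 1 := by simp [xU]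
    have h3 : xV k 1 = 1 := by simp [xV]
    have hC : xC k 0 = 1 := by simp [xC]
    intro s
    refine IntermediateField.subset_adjoin _ _ ?_
    rcases s with s | s | s
    · refine ⟨(cubIdx 0 1 0, (s.1, 1)), cellIdx 0 1 0, ?_⟩
      rw [xz_ne, xz_cub_left, hC, div_one, one_mul, xU, dif_pos s.2]
    · refine ⟨(cubIdx 0 1 0, (0, s.1)), cellIdx 0 1 0, ?_⟩
      rw [xz_ne, xz_cub_right, hC, div_one, one_mul, xV, dif_pos s.2]
    · refine ⟨(cubIdx 0 1 s.1, (0, 1)), cellIdx 0 1 0, ?_⟩
      rw [xz_ne, xz_cub_right, h3, div_one, mul_one, xC, dif_pos s.2]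
  intro a _
  obtain ⟨p, q, -, rfl⟩ := IsFractionRing.div_surjective (A := MvPolynomial (CellVar 0 1 0) k) a
  have hp : ∀ p : MvPolynomial (CellVar 0 1 0) k, algebraMap (MvPolynomial (CellVar 0 1 0) k) (KX k) p ∈
      IntermediateField.adjoin k {a : KX k | ∃ i j, a = zfun (xU k) (xV k) (xC k) i / zfun (xU k) (xV k) (xC k) j} := by
    intro p
    induction p using MvPolynomial.induction_on with
    | C c =>
      have : algebraMap (MvPolynomial (CellVar 0 1 0) k) (KX k) (C c) = algebraMap k (KX k) c :=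
        (IsScalarTower.algebraMap_apply k (MvPolynomial (CellVar 0 1 0) k) (KX k) c).symm
      rw [this]
      exact IntermediateField.algebraMap_mem _ _
    | add p q hp hq => rw [map_add]; exact add_mem hp hq
    | mul_X p s hp => rw [map_mul]; exact mul_mem hp (hv s)
  exact div_mem (hp p) (hp q)

/-- `X = P_{Gr(2,10)}(S^3 Pi)`: pairs of a line in `P^9` and a divisor of degree `3` on it,
in the Segre embedding of `P(S^3 V) × P(Λ^2 V)`. -/
def XX : ProjVar k where
  K := KX k
  ι := Idx
  z := zfun (xU k) (xV k) (xC k)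
  exists_ne_zero := ⟨cellIdx 0 1 0, by rw [xz_ne]; exact one_ne_zero⟩
  adjoin_eq_top := xz_adjoin k

end XX

section Generic

/-- Degree data: polynomials `u_l` (degree `≤ b1`), `v_l` (degree `≤ b2`), `a0` (degree `≤ n`). -/
abbrev SigH (b1 b2 n : ℕ) : Type := (Fin 10 × Fin (b1 + 1)) ⊕ (Fin 10 × Fin (b2 + 1)) ⊕ Fin (n + 1)

/-- Degree data: polynomials `u_l`, `v_l` (degree `≤ b`), `c_m` (degree `≤ n`). -/
abbrev SigG (b n : ℕ) : Type := (Fin 10 × Fin (b + 1)) ⊕ (Fin 10 × Fin (b + 1)) ⊕ (Fin 4 × Fin (n + 1))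

variable {R : Type*} [CommRing R]

/-- The polynomial with the given coefficients. -/
def polyOf {n : ℕ} (a : Fin (n + 1) → R) : Polynomial R :=
  ∑ j : Fin (n + 1), Polynomial.C (a j) * Polynomial.X ^ (j : ℕ)

/-- The family `F = a0 u^3 + 3 u v^2`, `P = u ∧ v` of polynomial tuples. -/
def famH {b1 b2 n : ℕ} (θ : SigH b1 b2 n → R) : Idx → Polynomial R :=
  zfun (fun l => polyOf fun j => θ (Sum.inl (l, j))) (fun l => polyOf fun j => θ (Sum.inr (Sum.inl (l, j))))
    ![polyOf fun j => θ (Sum.inr (Sum.inr j)), 0, 1, 0]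

/-- The family `F = c0 u^3 + 3 c1 u^2 v + 3 c2 u v^2 + c3 v^3`, `P = u ∧ v` of polynomial tuples. -/
def famG {b n : ℕ} (θ : SigG b n → R) : Idx → Polynomial R :=
  zfun (fun l => polyOf fun j => θ (Sum.inl (l, j))) (fun l => polyOf fun j => θ (Sum.inr (Sum.inl (l, j))))
    (fun m => polyOf fun j => θ (Sum.inr (Sum.inr (m, j))))

variable (k : Type u) [Field k]

/-- The field of rational functions in the coefficients. -/
def CoefField (σ : Type) : Type u := FractionRing (MvPolynomial σ k)

instance (σ : Type) : Field (CoefField k σ) := inferInstanceAs (Field (FractionRing (MvPolynomial σ k)))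

instance (σ : Type) : Algebra k (CoefField k σ) :=
  inferInstanceAs (Algebra k (FractionRing (MvPolynomial σ k)))

instance (σ : Type) : Algebra (MvPolynomial σ k) (CoefField k σ) :=
  inferInstanceAs (Algebra (MvPolynomial σ k) (FractionRing (MvPolynomial σ k)))

instance (σ : Type) : IsFractionRing (MvPolynomial σ k) (CoefField k σ) :=
  inferInstanceAs (IsFractionRing (MvPolynomial σ k) (FractionRing (MvPolynomial σ k)))

instance (σ : Type) : IsScalarTower k (MvPolynomial σ k) (CoefField k σ) :=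
  inferInstanceAs (IsScalarTower k (MvPolynomial σ k) (FractionRing (MvPolynomial σ k)))

/-- The generic values of the coefficients. -/
def genTh (σ : Type) (s : σ) : CoefField k σ := algebraMap (MvPolynomial σ k) (CoefField k σ) (X s)

variable {k}

/-- `φ` is a generic point of the cone over the set `M` of morphisms `P^1 → X`, all of degree `d`:
a polynomial in the coefficients vanishes at `φ` iff it vanishes on (the cone over) `M`. -/
def IsGenericOf {X : ProjVar k} (M : Set X.Mor) (d : ℕ) {Ω : Type u} [Field Ω] [Algebra k Ω]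
    (φ : X.ι × Fin (d + 1) → Ω) : Prop :=
  (∀ g ∈ M, g.1 = d) ∧ ∀ p : MvPolynomial (X.ι × Fin (d + 1)) k,
    aeval φ p = 0 ↔ ∀ a : X.Tuple d, (⟨d, Quotient.mk _ a⟩ : X.Mor) ∈ M → aeval a.1 p = 0

end Generic

end MP9a7843
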